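import Mathlib
import Pool.Agent.LeoG.AlgStmts
import Pool.Agent.Helper77_LeoK.Qua

/-!
# Squad leog: module QRG
-/

set_option autoImplicit false

open NumberField Module Polynomial
open Pool.Agent.LeoK

namespace Pool.Agent.LeoG.H65

/-- QRG -/
theorem qrg : QrgStmt := by
  intro k K _ _ _ _ _ m s hK hs hn hsf hq
  have hm0 : m ≠ 0 := by
    intro h0
    apply hn 0
    rw [h0]; simp
  have h3m : ((-(3 * m) : 𝓞 k) : k) = -(3 * (m : k)) := by
    change algebraMap (𝓞 k) k (-(3 * m)) = _
    rw [map_neg, map_mul, map_ofNat]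
  have hs' : s ^ 2 = -algebraMap k K ((-(3 * m) : 𝓞 k) : k) := by
    rw [hs, h3m, map_neg, neg_neg]
  have hn' : ∀ x : k, x ^ 2 ≠ -((-(3 * m) : 𝓞 k) : k) := by
    intro x
    rw [h3m, neg_neg]
    exact hn x
  have hs0 : s ≠ 0 := by
    intro h0
    apply hn 0
    apply (algebraMap k K).injective
    rw [← hs, h0]
    simp
  obtain ⟨c, hcs, hcc, hfix⟩ := Pool.Agent.LeoK.H77.exists_conj hK hs' hn'
  refine ⟨c, hcs, ?_, ?_⟩
  · intro x
    have hfx : c (((x : K) - c x) / s) = ((x : K) - c x) / s := by
      rw [map_div₀, map_sub, hcc, hcs]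
      field_simp
      ring
    obtain ⟨y, hy⟩ := hfix _ hfx
    have hxy : (x : K) - c x = algebraMap k K y * s := by
      rw [hy]; field_simp
    have hint : IsIntegral ℤ ((x : K) - c x) :=
      (RingOfIntegers.isIntegral_coe x).sub
        (map_isIntegral_int c.toRingEquiv.toRingHom (RingOfIntegers.isIntegral_coe x))
    have h3i : IsIntegral ℤ (3 : K) := by
      have := isIntegral_algebraMap (R := ℤ) (A := K) (x := 3)
      simpa using this
    have hmy : algebraMap k K ((m : k) * (3 * y) ^ 2) = 3 * ((x : K) - c x) ^ 2 := by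
      rw [hxy, mul_pow (algebraMap k K y), hs, map_mul, map_pow, map_mul, map_mul, map_ofNat]
      ring
    have h2 : IsIntegral ℤ ((m : k) * (3 * y) ^ 2) := by
      apply Pool.Agent.LeoK.H77.int_down (F := K)
      rw [hmy]
      exact h3i.mul (hint.pow 2)
    obtain ⟨y', hy'⟩ := Pool.Agent.LeoK.H77.int_of_sqf hm0 hsf h2
    refine ⟨y', ?_⟩
    rw [hy', hxy, map_mul, map_ofNat]
    ring
  · obtain ⟨q, r, hr⟩ := hq
    have hrk : (q : k) ^ 2 + (m : k) = 4 * (r : k) := by
      have := congrArg (algebraMap (𝓞 k) k) hr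
      rw [map_add, map_pow, map_mul, map_ofNat] at this
      exact this
    have hrK : algebraMap k K (q : k) ^ 2 + algebraMap k K (m : k) =
        4 * algebraMap k K (r : k) := by
      have := congrArg (algebraMap k K) hrk
      rw [map_add, map_pow, map_mul, map_ofNat] at this
      exact this
    have hs3 : s ^ 2 = 3 * algebraMap k K (m : k) := by
      rw [hs, map_mul, map_ofNat]
    have hw2 : ((algebraMap k K (q : k) + s) / 2) ^ 2 - algebraMap k K (q : k) *
        ((algebraMap k K (q : k) + s) / 2) +
          (algebraMap k K (r : k) - algebraMap k K (m : k)) = 0 := by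
      linear_combination (1 / 4 : K) * hs3 - (1 / 4 : K) * hrK
    have hwint : IsIntegral ℤ ((algebraMap k K (q : k) + s) / 2) := by
      have h1 : IsIntegral (𝓞 k) ((algebraMap k K (q : k) + s) / 2) := by
        refine ⟨X ^ 2 - C q * X + C (r - m), ?_, ?_⟩
        · have e : (X ^ 2 - C q * X + C (r - m) : (𝓞 k)[X]) =
              X ^ 2 + (-(C q * X) + C (r - m)) := by ring
          rw [e]
          apply monic_X_pow_add
          refine lt_of_le_of_lt (degree_add_le _ _) ?_
          rw [degree_neg]
          apply max_lt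
          · refine lt_of_le_of_lt (degree_C_mul_X_le q) ?_
            norm_num
          · refine lt_of_le_of_lt degree_C_le ?_
            norm_num
        · rw [← aeval_def]
          simp only [map_add, map_sub, map_mul, map_pow, aeval_X, aeval_C]
          rw [IsScalarTower.algebraMap_apply (𝓞 k) k K, IsScalarTower.algebraMap_apply (𝓞 k) k K,
            IsScalarTower.algebraMap_apply (𝓞 k) k K]
          exact hw2
      exact isIntegral_trans _ h1
    refine ⟨⟨_, hwint⟩, ?_⟩
    change (algebraMap k K (q : k) + s) / 2 - c ((algebraMap k K (q : k) + s) / 2) = s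
    rw [map_div₀, map_add, AlgEquiv.commutes, hcs, map_ofNat]
    ring

end Pool.Agent.LeoG.H65
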